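import Pool.Agent.H460.MP.HallPts

/-!
# The number of the integral points that satisfy Hall's inequality

We consider the integral points `(x, y)` on all the Mordell curves `y² = x³ + d`, `0 < |d| ≤ D`,
together.  Let `area ≥ 2` be the area of the region `|y² - x³| ≤ 1` of the plane.

(1) The number of those with `|x| ≤ X` in any given residue classes `x ≡ a (mod m)`,
`y ≡ b (mod n)` is `area D ^ (5/6) / (m n) + O(D ^ (7/9 + ε) + D ^ (1/6) X ^ (1/4 + ε) + D / √X)`,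
uniformly in `m`, `n`, `a`, `b`.  (2) The number of the `d`, `0 < |d| ≤ D`, such that the curve has an
integral point with `|x| ≤ X` is `area / 2 D ^ (5/6) + O(D ^ (4/5 + ε) + D ^ (1/6) X ^ (1/4 + ε) +
D / √X)`, and the number of those with three or more points is not larger than the error.  So for
`X = D ^ θ` with any `1/3 < θ < 8/3` the numbers are asymptotic to `area D ^ (5/6)` and
`area / 2 D ^ (5/6)` (3).  (4) In particular the number of the integral points that satisfy Hall's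
inequality `|x| ≤ A |d| ^ (2 + ε)` (even with any exponent `θ < 8/3` in place of `2 + ε`) is
asymptotic to `area D ^ (5/6)`.

The points with `|x| ≤ 4 √D` are counted directly.  The others are few: for these we use the
correspondence of the points with binary cubic and quartic forms that represent one, in the form of
the counting theorems `cub` and `qua` of our library.  (That the count for `|x|` of order `D ^ (1/3)`
is the whole main term is due to the fact that the length of the section at `x` of the region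
`|y² - x³| ≤ D` is about `2 D / x ^ (3/2)`; the difficulty is that this is much less than one, so
that the points with `√D < x < D ^ (8/3 - δ)` could be much more numerous than expected.)
-/

set_option autoImplicit false

namespace Pool.Agent.Results.MP_9d7cd1_nt.NumberOfIntegralPoints

open MeasureTheory Filter Topology

/-- the integral points `(x, y)` with `x ≡ a (mod m)`, `y ≡ b (mod n)` and `|x| ≤ X` on the curves
`y² = x³ + d`, `0 < |d| ≤ D` -/
def Points (D X : ℝ) (a m b n : ℤ) : Set (ℤ × ℤ) :=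
  {p | p.1 ≡ a [ZMOD m] ∧ p.2 ≡ b [ZMOD n] ∧ |(p.1 : ℝ)| ≤ X ∧ p.2 ^ 2 ≠ p.1 ^ 3 ∧
    |(p.2 : ℝ) ^ 2 - (p.1 : ℝ) ^ 3| ≤ D}

/-- the `d`, `0 < |d| ≤ D`, such that `y² = x³ + d` has an integral point with `|x| ≤ X` -/
def CurvesWithPoint (D X : ℝ) : Set ℤ :=
  {d | d ≠ 0 ∧ |(d : ℝ)| ≤ D ∧ ∃ x y : ℤ, |(x : ℝ)| ≤ X ∧ y ^ 2 = x ^ 3 + d}

/-- the `d`, `0 < |d| ≤ D`, such that `y² = x³ + d` has at least three integral points with
`|x| ≤ X` -/
def CurvesWithThreePoints (D X : ℝ) : Set ℤ :=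
  {d | d ≠ 0 ∧ |(d : ℝ)| ≤ D ∧
    3 ≤ {p : ℤ × ℤ | |(p.1 : ℝ)| ≤ X ∧ p.2 ^ 2 = p.1 ^ 3 + d}.ncard}

/-- the integral points on the curves `y² = x³ + d`, `0 < |d| ≤ D`, with `|x| ≤ A |d| ^ θ` -/
def HallPoints (A θ D : ℝ) : Set (ℤ × ℤ) :=
  {p | p.2 ^ 2 ≠ p.1 ^ 3 ∧ |(p.2 : ℝ) ^ 2 - (p.1 : ℝ) ^ 3| ≤ D ∧
    |(p.1 : ℝ)| ≤ A * |(p.2 : ℝ) ^ 2 - (p.1 : ℝ) ^ 3| ^ θ}

/-- the area of the region `|y² - x³| ≤ 1` of the plane -/
noncomputable def area : ℝ := (volume {p : ℝ × ℝ | |p.2 ^ 2 - p.1 ^ 3| ≤ 1}).toReal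

/-- **Theorem.** The number of the integral points on Mordell curves: asymptotically in residue
classes (1), the number of the curves with an integral point (2), (3), the number of the integral
points that satisfy Hall's inequality (4). -/
theorem result :
    (∀ ε : ℝ, 0 < ε → ∃ C : ℝ, ∀ D X : ℝ, 1 ≤ D → D ^ ((1 : ℝ) / 3) ≤ X →
      ∀ a m b n : ℤ, 0 < m → 0 < n →
        |((Points D X a m b n).ncard : ℝ) - area * D ^ ((5 : ℝ) / 6) / (m * n)|
          ≤ C * (D ^ (7 / 9 + ε) + D ^ ((1 : ℝ) / 6) * X ^ (1 / 4 + ε) + D / √X)) ∧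
    (∀ ε : ℝ, 0 < ε → ∃ C : ℝ, ∀ D X : ℝ, 1 ≤ D → D ^ ((1 : ℝ) / 3) ≤ X →
        |((CurvesWithPoint D X).ncard : ℝ) - area / 2 * D ^ ((5 : ℝ) / 6)|
          ≤ C * (D ^ (4 / 5 + ε) + D ^ ((1 : ℝ) / 6) * X ^ (1 / 4 + ε) + D / √X) ∧
        ((CurvesWithThreePoints D X).ncard : ℝ)
          ≤ C * (D ^ (4 / 5 + ε) + D ^ ((1 : ℝ) / 6) * X ^ (1 / 4 + ε) + D / √X)) ∧
    (∀ θ : ℝ, 1 / 3 < θ → θ < 8 / 3 →
      Tendsto (fun D : ℝ => ((Points D (D ^ θ) 0 1 0 1).ncard : ℝ) / D ^ ((5 : ℝ) / 6))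
        atTop (𝓝 area) ∧
      Tendsto (fun D : ℝ => ((CurvesWithPoint D (D ^ θ)).ncard : ℝ) / D ^ ((5 : ℝ) / 6))
        atTop (𝓝 (area / 2)) ∧
      Tendsto (fun D : ℝ => ((CurvesWithThreePoints D (D ^ θ)).ncard : ℝ) / D ^ ((5 : ℝ) / 6))
        atTop (𝓝 0)) ∧
    (∀ A θ : ℝ, 0 < A → 1 / 3 < θ → θ < 8 / 3 →
      Tendsto (fun D : ℝ => ((HallPoints A θ D).ncard : ℝ) / D ^ ((5 : ℝ) / 6))
        atTop (𝓝 area)) ∧
    2 ≤ area := by
  have harea : area = Pool.Agent.H460.MP.c := Pool.Agent.H460.MP.area_eq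
  rw [harea]
  refine ⟨?_, ?_, ?_, ?_, Pool.Agent.H460.MP.c_ge⟩
  · intro ε hε
    obtain ⟨C, _, h⟩ := Pool.Agent.H460.MP.asymp ε hε
    exact ⟨C, h⟩
  · intro ε hε
    obtain ⟨C, _, h⟩ := Pool.Agent.H460.MP.count_curves ε hε
    exact ⟨C, h⟩
  · intro θ h1 h2
    exact ⟨Pool.Agent.H460.MP.lim_pts θ h1 h2, Pool.Agent.H460.MP.lim_curves θ h1 h2,
      Pool.Agent.H460.MP.lim_many θ h1 h2⟩
  · intro A θ hA h1 h2
    exact Pool.Agent.H460.MP.lim_hall A θ hA h1 h2

end Pool.Agent.Results.MP_9d7cd1_nt.NumberOfIntegralPoints
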